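import Pool.Agent.helper70.NZ.SpecB

/-!
# MP_baa4d7_al, THEOREM NZ, row YUP: the block of `N'` over `ψ'` (port of helper8/NE/YUP.lean; case 2 by ZUX, NE.YCV, YUL)
-/

set_option autoImplicit false

namespace Pool.Agent.ND.NY.E

open Pool.Agent.helper58.DC Pool.Agent.DI Pool.Agent.GR Pool.Agent.OB Pool.Agent.DR Pool.Agent.FI Pool.Agent.FI3 Pool.Agent.FI4 Pool.Agent.FI4I Pool.Agent.LE Pool.Agent.L5 Pool.Agent.NAB Pool.Agent.NE
open Pool.Agent.ZB (Pm Om KZ EQ BQ lQ MZc BDK)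

/-- `cjS g K = K` for `g ∈ nz K` -/
theorem YUP_cjS {G : Type} [Group G] {K : Subgroup G} {g : G} (hg : g ∈ nz K) :
    K.map (MulAut.conj g).toMonoidHom = K := by
  ext y
  change y ∈ cjS g K ↔ y ∈ K
  rw [mem_cjS]
  have h := Subgroup.mem_normalizer_iff.1 ((nz K).inv_mem hg) y
  rw [inv_inv] at h
  exact h.symm

/-- stability of a block under `K ⊔ ⟨w⟩` -/
theorem YUP_stab (hCJG : CJG_stmt) {G : Type} [Group G] [Finite G] (p : ℕ) (M : Ideal (integralClosure ℤ ℂ))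
    (K : Subgroup G) (w : G) (ψ : G → ℂ) (hw : w ∈ nz K) (hs : SB M K (cjF w ψ) ψ) :
    ∀ g ∈ K ⊔ Subgroup.zpowers w, SB M K (cjF g ψ) ψ := by
  have hcc : ∀ (a b : G) (φ : G → ℂ), cjF a (cjF b φ) = cjF (a * b) φ := fun a b φ =>
    (hCJG G M p a K).2.2.2.2.2.2.2.1 b φ
  have hmv : ∀ a ∈ nz K, ∀ η φ : G → ℂ, SB M K η φ → SB M K (cjF a η) (cjF a φ) := by
    intro a ha η φ h
    have h1 := (hCJG G M p a K).2.1 η φ h
    rwa [YUP_cjS ha] at h1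
  have hin : ∀ a ∈ K, ∀ φ : G → ℂ, SB M K (cjF a φ) φ := fun a ha φ =>
    ((hCJG G M p a K).2.2.2.2.2.1 ha φ).1
  have hone : cjF (1 : G) ψ = ψ := by
    funext x
    rw [cjF_apply]
    simp
  let S : Subgroup G :=
    { carrier := {g | g ∈ nz K ∧ SB M K (cjF g ψ) ψ}
      one_mem' := by
        refine ⟨(nz K).one_mem, ?_⟩
        rw [hone]
        exact SB.refl _ _
      mul_mem' := by
        rintro a b ⟨ha, ha'⟩ ⟨hb, hb'⟩
        refine ⟨(nz K).mul_mem ha hb, ?_⟩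
        rw [← hcc]
        exact (hmv a ha _ _ hb').trans ha'
      inv_mem' := by
        rintro a ⟨ha, ha'⟩
        refine ⟨(nz K).inv_mem ha, ?_⟩
        have h1 := hmv a⁻¹ ((nz K).inv_mem ha) _ _ ha'
        rw [hcc, inv_mul_cancel, hone] at h1
        exact h1.symm }
  have hle : K ⊔ Subgroup.zpowers w ≤ S := by
    refine sup_le ?_ ?_
    · intro a ha
      exact ⟨Subgroup.le_normalizer ha, hin a ha ψ⟩
    · rw [Subgroup.zpowers_le]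
      exact ⟨hw, hs⟩
  intro g hg
  exact (hle hg).2

theorem YUP (hYUL : YUL_stmt) (hYGW : Pool.Agent.NE.YGW_stmt) (hYSW : YSW_stmt) (hYBE : YBE_stmt) (hNUB : NUB_stmt)
    (hZUX : Pool.Agent.ZB.ZUX_stmt) (hYCV : Pool.Agent.NE.YCV_stmt) (hCJG : CJG_stmt) (hZGP : ZGP_stmt) : YUP_stmt := by
  intro p e m t M hS G _ _ N χ Z z x w hw L hL ψ hψ ψ' hψ' hmt
  have hp : p.Prime := hS.pr
  obtain ⟨hi, hsb, z', x', hucl, hzg⟩ := hψ
  have hem := hw.zn.em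
  have hZ := hZGP p e m.a hp (by omega) G z hw.zn.uc.pe hw.zn.uc.od
  obtain ⟨sw1, sw2, sw3, sw4, sw5, sw6, sw7, sw8⟩ := hYSW p e m t M hS G N χ Z z x hw.zn w hw.ww.nn hw.ww.nZ hw.bs
  obtain ⟨be1, be2, be3, be4, be5, be6, be7, be8⟩ := hYBE p e m t M hS G N χ Z z x hw.zn
  have hgw := hYGW p hp G N Z w hw.ww
  -- stability and unit classes for the characters of `N` in the block of `χ`
  have hN : ∀ φ ∈ IrrOn N, SB M N φ χ → Ucl p e m M N φ z x ∧ ∀ g ∈ Nw N w, SB M N (cjF g φ) φ := by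
    intro φ _ hφ
    refine ⟨(hNUB p e m M hS G N χ z x hw.zn.uc).1 φ hφ.symm, ?_⟩
    have hmv : SB M N (cjF w φ) (cjF w χ) := by
      have h1 := (hCJG G M p w N).2.1 φ χ hφ
      rwa [YUP_cjS hw.ww.nn] at h1
    exact YUP_stab hCJG p M N w φ hw.ww.nn ((hmv.trans hw.bs).trans hφ.symm)
  rcases hL with hL | hL
  · subst hL
    obtain ⟨hucl', hst⟩ := hN ψ hi hsb
    have hU := hYUL p e m M hS G L w hw.ww.nn hgw.2.1 ψ' hψ' ψ hi hmt hst z x hucl'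
    exact ⟨ψ', z, x, ⟨hem, hw.zn.eb, hw.zn.tx, hψ', hU, hw.zn.zz⟩, Or.inl rfl,
      hψ', SB.refl _ _, z, x, hU, hw.zn.zz⟩
  · have hwL := (sw1 L (Or.inr hL)).1
    have hww : Pool.Agent.NE.WW p L Z w := ⟨hw.ww.re, hwL, hw.ww.nZ⟩
    have hgL := hYGW p hp G L Z w hww
    have h4 : Nw N w ⊓ nz (Eg p e z) = Nw L w := by
      rw [hgw.2.2.2.1 _ sw8, hL]
    have h5 : Nw L w ⊓ N = L := by
      have := hgw.2.2.2.2.1 _ sw8
      rwa [← hL] at this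
    have hcw : cjF w ψ ∈ GN p e m M N χ L Z := sw2 L hwL ψ ⟨hi, hsb, z', x', hucl, hzg⟩
    have hs : SB M L (cjF w ψ) ψ := by
      rw [hL] at hcw ⊢
      refine be3 _ hcw _ ?_
      rw [← hL]
      exact ⟨hi, hsb, z', x', hucl, hzg⟩
    have hst := YUP_stab hCJG p M L w ψ hwL hs
    have hU := hYUL p e m M hS G L w hwL hgL.2.1 ψ' hψ' ψ hi hmt hst z' x' hucl
    have hEZ : Eg p e z ≤ Z := by
      have := hZ.2.2.2.1.1
      rwa [hw.zn.zz] at this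
    have hE1 : IsPGroup p (Eg p e z) := be8.to_le hEZ
    have hE2 : Eg p e z ≤ Nw N w := (hEZ.trans be4).trans hgw.1.1
    have hψ'' : ψ' ∈ IrrOn (Nw N w ⊓ nz (Eg p e z)) := by rw [h4]; exact hψ'
    obtain ⟨χ', hχ', hχs⟩ := hZUX p M hS G (Nw N w) (Eg p e z) hE1 hE2 ψ' hψ''
    have hC : Nw L w ≤ Nw N w := by
      rw [← h4]
      exact inf_le_left
    obtain ⟨χ₁, hχ₁, hm1, hs1⟩ := hYCV p M hS G N (Nw N w) (Nw L w) hgw.1.1 hgw.1.2.2 hC ψ' hψ' ψ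
      (by rw [h5]; exact hi) (by rw [h5]; exact hmt) χ hw.zn.ch χ' hχ' hsb hχs
    obtain ⟨hu1, hst1⟩ := hN χ₁ hχ₁ hs1
    have hUN := hYUL p e m M hS G N w hw.ww.nn hgw.2.1 χ' hχ' χ₁ hχ₁ hm1 hst1 z x hu1
    refine ⟨χ', z, x, ⟨hem, hw.zn.eb, hw.zn.tx, hχ', hUN, hw.zn.zz⟩, Or.inr ?_, hψ', hχs, z', x', hU, hzg⟩
    rw [h4]

end Pool.Agent.ND.NY.E
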